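import Pool.Agent.H28.BR.All

set_option autoImplicit false

/-!
# The first moment of `L(1/2, χ_D)` along irrational rotations and Beatty sequences

The case `k = 1` of the conjecture of Conrey, Farmer, Keating, Rubinstein and Snaith, with the full polynomial
`Q_±(1, x)` and a power saving, for the discriminants `D = ± n` with `α n + β` in an arc modulo one, or with `n` in a
Beatty sequence `⌊α m + β⌋`, for every irrational `α` which is not a Liouville number.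
-/

namespace Pool.Agent.Results.MP_ea46f5_nt.FirstMomentIrrationalRotations

open Finset Filter Topology

noncomputable section

/-- `(D/2)` for a fundamental discriminant `D`: `1`, `-1`, `0` for `D ≡ 1`, `5` modulo `8`, `D` even -/
def kr2 (D : ℤ) : ℤ := if D % 8 = 1 then 1 else if D % 8 = 5 then -1 else 0

/-- the Kronecker symbol `(D/n)`, `n ≥ 1`, for a fundamental discriminant `D` -/
def kron (D : ℤ) (n : ℕ) : ℤ :=
  kr2 D ^ (n.factorization 2) * jacobiSym D (n / 2 ^ (n.factorization 2))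

/-- fundamental discriminants (with `1`) -/
def IsFund (D : ℤ) : Prop :=
  (D % 4 = 1 ∧ Squarefree D) ∨
    ∃ m : ℤ, D = 4 * m ∧ (m % 4 = 2 ∨ m % 4 = 3) ∧ Squarefree m

/-- `L(1/2, χ_D)`, the limit of the partial sums of `∑ (D/n) n^{-1/2}` -/
def LHalf (D : ℤ) : ℝ :=
  limUnder atTop (fun N : ℕ => ∑ n ∈ Icc 1 N, (kron D n : ℝ) / Real.sqrt n)

open Classical in
/-- `L(1/2, χ_D)` if `D = ε n` is a fundamental discriminant, and `0` otherwise -/
def central (ε : ℤ) (n : ℕ) : ℝ := if IsFund (ε * (n : ℤ)) then LHalf (ε * (n : ℤ)) else 0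

/-- `Γ'/Γ ((1/2 + a)/2) - log π`, the value at `1/2` of `-𝔛'/𝔛(s, a)` -/
def lam (a : ℕ) : ℝ :=
  deriv Real.Gamma ((1 / 2 + (a : ℝ)) / 2) / Real.Gamma ((1 / 2 + (a : ℝ)) / 2) -
    Real.log Real.pi

/-- `A_1(0) = ∏_p (1 - 1/(p(p+1)))` -/
def P1 : ℝ := ∏' p : Nat.Primes, (1 - 1 / (((p : ℕ) : ℝ) * (((p : ℕ) : ℝ) + 1)))

/-- `A_1'(0)/(2 A_1(0)) = ∑_p log p/(p² + p - 1)` -/
def Lp : ℝ := ∑' p : Nat.Primes,
  Real.log ((p : ℕ) : ℝ) / (((p : ℕ) : ℝ) ^ 2 + ((p : ℕ) : ℝ) - 1)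

/-- the polynomial `Q_±(1, x)` of the conjecture; `a = 0` for `+`, `a = 1` for `-` -/
def Q1 (a : ℕ) (x : ℝ) : ℝ :=
  P1 * ((x + lam a) / 2 + 2 * Real.eulerMascheroniConstant + 2 * Lp)

/-- the main term `(3/π²) ∫_1^X Q_±(1, log t) dt` of the conjecture -/
def mainTerm (ε : ℤ) (X : ℕ) : ℝ :=
  3 / Real.pi ^ 2 * ∫ t in (1 : ℝ)..(X : ℝ), Q1 (if ε = 1 then 0 else 1) (Real.log t)

open Classical in
/-- the sum of the central values over the terms `1 < n ≤ X` of the Beatty sequence `⌊α m + β⌋`, `m` an integer -/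
def beattySum (ε : ℤ) (α β : ℝ) (X : ℕ) : ℝ :=
  ∑ n ∈ Ioc 1 X, if ∃ m : ℤ, ⌊α * m + β⌋ = (n : ℤ) then central ε n else 0

theorem result :
    -- (0) the partial sums of the series of `L(1/2, χ_D)` converge
    (∀ D : ℤ, IsFund D → D ≠ 1 →
      Tendsto (fun N : ℕ => ∑ n ∈ Icc 1 N, (kron D n : ℝ) / Real.sqrt n) atTop (𝓝 (LHalf D))) ∧
    -- (1) Beatty sequences, for all irrational `α` which are not Liouville numbers
    (∀ α : ℝ, 1 < α → Irrational α → ¬ Liouville α → ∃ C δ : ℝ, 0 < C ∧ 0 < δ ∧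
      ∀ ε : ℤ, (ε = 1 ∨ ε = -1) → ∀ (X : ℕ) (β : ℝ), 1 ≤ X →
      |beattySum ε α β X - 1 / α * mainTerm ε X| ≤ C * (X : ℝ) ^ (1 - δ)) ∧
    -- (2) the same for all arcs
    (∀ α : ℝ, Irrational α → ¬ Liouville α → ∃ C δ : ℝ, 0 < C ∧ 0 < δ ∧
      ∀ ε : ℤ, (ε = 1 ∨ ε = -1) → ∀ (X : ℕ) (β v : ℝ), 1 ≤ X → 0 ≤ v → v ≤ 1 →
      |∑ n ∈ (Ioc 1 X).filter (fun n : ℕ => Int.fract (α * n + β) < v), central ε n -
        v * mainTerm ε X| ≤ C * (X : ℝ) ^ (1 - δ)) := by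
  refine ⟨Pool.Agent.Q122.FM.fdd.1, ?_, ?_⟩
  · intro α hα1 hα hL
    obtain ⟨c, τ, hc, hτ, -, h2⟩ := Pool.Agent.H28.BR.nlv α hα hL
    obtain ⟨C, δ, hC, hδ, hb⟩ := Pool.Agent.H28.BR.bhr (-(1 / α)) c τ hc hτ h2
    refine ⟨C, δ, hC, hδ, ?_⟩
    intro ε hε X β hX
    have hv : 1 / α ≤ 1 := by
      rw [div_le_one (by linarith)]
      exact hα1.le
    have h := hb ε hε X (β / α) (1 / α) hX (by positivity) hv
    have e1 : beattySum ε α β X = ∑ n ∈ (Ioc 1 X).filter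
        (fun n : ℕ => Int.fract (-(1 / α) * n + β / α) < 1 / α), central ε n := by
      unfold beattySum
      rw [Finset.sum_filter]
      apply Finset.sum_congr rfl
      intro n _
      by_cases hn : Int.fract (-(1 / α) * n + β / α) < 1 / α
      · rw [if_pos hn, if_pos ((Pool.Agent.H28.BR.bty α β n hα1).2 hn)]
      · rw [if_neg hn, if_neg (fun h' => hn ((Pool.Agent.H28.BR.bty α β n hα1).1 h'))]
    rw [e1]
    exact h
  · intro α hα hL
    obtain ⟨c, τ, hc, hτ, h1, -⟩ := Pool.Agent.H28.BR.nlv α hα hL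
    exact Pool.Agent.H28.BR.bhr α c τ hc hτ h1

end

end Pool.Agent.Results.MP_ea46f5_nt.FirstMomentIrrationalRotations
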