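import Pool.Agent.H28.BR.All2

set_option autoImplicit false

/-!
# Lower bounds of the conjectured order for all moments of `L(1/2, χ_D)` along Beatty sequences

For every `k ≥ 1` and every irrational `α` which is not a Liouville number, the `k`-th moment of `|L(1/2, χ_D)|` over
the fundamental discriminants `D = ± n`, `n ≤ X`, with `α n + β` in an arc of length `v` modulo one is at least
`c v X (log X)^(k(k+1)/2)`, uniformly in `β` and in `X^(-δ) ≤ v ≤ 1`; the same for the terms of the Beatty sequences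
`⌊α m + β⌋`.
-/

namespace Pool.Agent.Results.MP_ea46f5_nt.MomentLowerBoundsBeattySequences

open Finset Filter Topology

noncomputable section

/-- `(D/2)` for a fundamental discriminant `D`: `1`, `-1`, `0` for `D ≡ 1`, `5` modulo `8`, `D` even -/
def kr2 (D : ℤ) : ℤ := if D % 8 = 1 then 1 else if D % 8 = 5 then -1 else 0

/-- the Kronecker symbol `(D/n)`, `n ≥ 1`, for a fundamental discriminant `D` -/
def kron (D : ℤ) (n : ℕ) : ℤ :=
  kr2 D ^ (n.factorization 2) * jacobiSym D (n / 2 ^ (n.factorization 2))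

/-- fundamental discriminants (with `1`) -/
def IsFund (D : ℤ) : Prop :=
  (D % 4 = 1 ∧ Squarefree D) ∨
    ∃ m : ℤ, D = 4 * m ∧ (m % 4 = 2 ∨ m % 4 = 3) ∧ Squarefree m

/-- `L(1/2, χ_D)`, the limit of the partial sums of `∑ (D/n) n^{-1/2}` -/
def LHalf (D : ℤ) : ℝ :=
  limUnder atTop (fun N : ℕ => ∑ n ∈ Icc 1 N, (kron D n : ℝ) / Real.sqrt n)

open Classical in
/-- sum of `|L(1/2, χ_D)|^k` over the fundamental discriminants `D = ε n`, `1 < n ≤ X`, with `P n` -/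
def moment (ε : ℤ) (k X : ℕ) (P : ℕ → Prop) : ℝ :=
  ∑ n ∈ Ioc 1 X, if P n ∧ IsFund (ε * (n : ℤ)) then |LHalf (ε * (n : ℤ))| ^ k else 0

theorem result :
    -- the partial sums of the series of `L(1/2, χ_D)` converge
    (∀ D : ℤ, IsFund D → D ≠ 1 →
      Tendsto (fun N : ℕ => ∑ n ∈ Icc 1 N, (kron D n : ℝ) / Real.sqrt n) atTop (𝓝 (LHalf D))) ∧
    -- arcs
    (∀ k : ℕ, 1 ≤ k → ∀ α : ℝ, Irrational α → ¬ Liouville α → ∃ (c δ : ℝ) (X0 : ℕ), 0 < c ∧ 0 < δ ∧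
      ∀ ε : ℤ, (ε = 1 ∨ ε = -1) → ∀ X : ℕ, X0 ≤ X → ∀ v β : ℝ, (X : ℝ) ^ (-δ) ≤ v → v ≤ 1 →
      c * v * X * Real.log X ^ (k * (k + 1) / 2) ≤
        moment ε k X (fun n => Int.fract (α * n + β) < v)) ∧
    -- Beatty sequences
    (∀ k : ℕ, 1 ≤ k → ∀ α : ℝ, 1 < α → Irrational α → ¬ Liouville α → ∃ (c : ℝ) (X0 : ℕ), 0 < c ∧
      ∀ ε : ℤ, (ε = 1 ∨ ε = -1) → ∀ X : ℕ, X0 ≤ X → ∀ β : ℝ,
      c * X * Real.log X ^ (k * (k + 1) / 2) ≤
        moment ε k X (fun n => ∃ m : ℤ, ⌊α * m + β⌋ = (n : ℤ))) := by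
  have key : ∀ (ε : ℤ) (k X : ℕ) (P : ℕ → Prop) [DecidablePred P], 1 ≤ k →
      moment ε k X P = ∑ n ∈ (Ioc 1 X).filter P, |Pool.Agent.H28.BR.Lf ε n| ^ k := by
    intro ε k X P _ hk
    unfold moment
    rw [Finset.sum_filter]
    apply Finset.sum_congr rfl
    intro n _
    unfold Pool.Agent.H28.BR.Lf
    by_cases h1 : P n
    · by_cases h2 : IsFund (ε * (n : ℤ))
      · have h3 : Pool.Agent.Q122.FM.IsFund (ε * (n : ℤ)) := h2
        rw [if_pos ⟨h1, h2⟩, if_pos h1, if_pos h3]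
        rfl
      · have h3 : ¬ Pool.Agent.Q122.FM.IsFund (ε * (n : ℤ)) := h2
        rw [if_neg (fun h => h2 h.2), if_pos h1, if_neg h3]
        simp [show k ≠ 0 by omega]
    · rw [if_neg (fun h => h1 h.1), if_neg h1]
  refine ⟨Pool.Agent.Q122.FM.fdd.1, ?_, ?_⟩
  · intro k hk α hα hL
    obtain ⟨c, τ, hc, hτ, h1, -⟩ := Pool.Agent.H28.BR.nlv α hα hL
    obtain ⟨c₀, δ, X0, hc₀, hδ, hb⟩ := Pool.Agent.H28.BR2.low k hk α c τ ⟨hc, hτ, h1⟩
    refine ⟨c₀, δ, X0, hc₀, hδ, ?_⟩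
    intro ε hε X hX v β hv hv1
    rw [key ε k X _ hk]
    exact hb ε hε X hX v β hv hv1
  · intro k hk α hα1 hα hL
    obtain ⟨c, τ, hc, hτ, -, h2⟩ := Pool.Agent.H28.BR.nlv α hα hL
    obtain ⟨c₀, δ, X0, hc₀, hδ, hb⟩ := Pool.Agent.H28.BR2.low k hk (-(1 / α)) c τ ⟨hc, hτ, h2⟩
    have hα0 : 0 < α := by linarith
    have hev : ∀ᶠ X : ℕ in atTop, (X : ℝ) ^ (-δ) ≤ 1 / α := by
      have h3 : Tendsto (fun X : ℕ => (X : ℝ) ^ (-δ)) atTop (𝓝 0) :=
        (tendsto_rpow_neg_atTop hδ).comp tendsto_natCast_atTop_atTop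
      exact (h3.eventually_lt_const (by positivity : (0 : ℝ) < 1 / α)).mono fun X h => h.le
    obtain ⟨X1, hX1⟩ := eventually_atTop.1 hev
    refine ⟨c₀ * (1 / α), max X0 X1, by positivity, ?_⟩
    intro ε hε X hX β
    have h4 := hb ε hε X ((le_max_left _ _).trans hX) (1 / α) (β / α)
      (hX1 X ((le_max_right _ _).trans hX)) (by rw [div_le_one hα0]; exact hα1.le)
    rw [← key ε k X _ hk] at h4
    refine h4.trans (le_of_eq ?_)
    unfold moment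
    apply Finset.sum_congr rfl
    intro n _
    have h5 := Pool.Agent.H28.BR.bty α β n hα1
    by_cases h6 : Int.fract (-(1 / α) * n + β / α) < 1 / α
    · by_cases h7 : IsFund (ε * (n : ℤ))
      · rw [if_pos ⟨h6, h7⟩, if_pos ⟨h5.2 h6, h7⟩]
      · rw [if_neg (fun h => h7 h.2), if_neg (fun h => h7 h.2)]
    · rw [if_neg (fun h => h6 h.1), if_neg (fun h => h6 (h5.1 h.1))]

end

end Pool.Agent.Results.MP_ea46f5_nt.MomentLowerBoundsBeattySequences
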