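import Pool.Agent.H86.QC.G

set_option autoImplicit false

/-!
# Moments of `L(1/2, χ_d)` over the products `d = D E` of the elements of arbitrary sets

Let `S` be an arbitrary set of `X ^ (1 / 2 + δ)` pairwise coprime fundamental discriminants of size between
`X` and `R X` (for example a set of prime discriminants). The products `D E` of different elements of `S` are
fundamental discriminants. We prove lower bounds of the conjectured order of magnitude for all the moments
of the central values `L(1/2, χ_{DE})`, the positivity of a weighted first moment, and that many of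
these central values are positive and larger than `c log X`.

Method. There is no large sieve which would see such thin sets; the proof is by positivity. With `q = D E` the
approximate functional equation with the rational weight
`X² u / (1 + X² u) + q² u / (X² + q² u)` holds for every `X`. After multiplication by `2 D E / (D² + E²)` the
dependence on `q` is a Cauchy kernel in `D` and `E`, hence positive semidefinite. So all the terms of the
smoothed sum over `n`, and of its product with arbitrary Dirichlet polynomials with nonnegative coefficients,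
are nonnegative after summation over `D` and `E`, and one can drop all of them but the short ones; the price is
the contribution of the pairs `D = E`, which is of the size `|S| √X`.

No unproved hypothesis is made.
-/

namespace Pool.Agent.Results.MP_ea46f5_nt.ProductsFromArbitrarySets

open Finset Filter Topology

noncomputable section

/-- `(D/2)` for a fundamental discriminant `D`: `1`, `-1`, `0` for `D ≡ 1`, `5` modulo `8`,
`D` even -/
def kr2 (D : ℤ) : ℤ := if D % 8 = 1 then 1 else if D % 8 = 5 then -1 else 0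

/-- the Kronecker symbol `(D/n)`, `n ≥ 1`, for a fundamental discriminant `D` -/
def kron (D : ℤ) (n : ℕ) : ℤ :=
  kr2 D ^ (n.factorization 2) * jacobiSym D (n / 2 ^ (n.factorization 2))

/-- fundamental discriminants (with `1`) -/
def IsFund (D : ℤ) : Prop :=
  (D % 4 = 1 ∧ Squarefree D) ∨
    ∃ m : ℤ, D = 4 * m ∧ (m % 4 = 2 ∨ m % 4 = 3) ∧ Squarefree m

/-- `L(1/2, χ_D)`, the limit of the partial sums of `∑ (D/n) n^{-1/2}` -/
def LHalf (D : ℤ) : ℝ :=
  limUnder atTop (fun N : ℕ => ∑ n ∈ Icc 1 N, (kron D n : ℝ) / Real.sqrt n)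

/-- a set of pairwise coprime fundamental discriminants of size between `X` and `R X` -/
def Family (S : Finset ℤ) (X R : ℝ) : Prop :=
  (∀ D ∈ S, IsFund D ∧ X ≤ |(D : ℝ)| ∧ |(D : ℝ)| ≤ R * X) ∧
    ∀ D ∈ S, ∀ E ∈ S, D ≠ E → IsCoprime D E

open Classical in
/-- **Moments over the products of the elements of arbitrary sets.** Let `δ > 0` and `R ≥ 1`. -/
theorem result (δ R : ℝ) (hδ : 0 < δ) (hR : 1 ≤ R) :
    -- (0) the partial sums of the series of `L(1/2, χ_D)` converge, and products of different coprime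
    -- fundamental discriminants are fundamental discriminants, not equal to `1`
    (∀ D : ℤ, IsFund D → D ≠ 1 →
      Tendsto (fun N : ℕ => ∑ n ∈ Icc 1 N, (kron D n : ℝ) / Real.sqrt n) atTop (𝓝 (LHalf D))) ∧
    (∀ D E : ℤ, IsFund D → IsFund E → IsCoprime D E → D ≠ E → IsFund (D * E) ∧ D * E ≠ 1) ∧
    -- (1) all moments
    (∀ k : ℕ, 1 ≤ k → ∃ c : ℝ, 0 < c ∧ ∃ X₀ : ℝ, ∀ X : ℝ, X₀ ≤ X → ∀ S : Finset ℤ, Family S X R →
      X ^ (1 / 2 + δ) ≤ S.card →
      c * (S.card : ℝ) ^ 2 * Real.log X ^ (k * (k + 1) / 2) ≤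
        ∑ D ∈ S, ∑ E ∈ S.erase D, |LHalf (D * E)| ^ k) ∧
    -- (2) the first moment with signs
    (∃ c : ℝ, 0 < c ∧ ∃ X₀ : ℝ, ∀ X : ℝ, X₀ ≤ X → ∀ S : Finset ℤ, Family S X R →
      (∀ D ∈ S, D % 4 = 1) → ((∀ D ∈ S, 0 < D) ∨ (∀ D ∈ S, D < 0)) → X ^ (1 / 2 + δ) ≤ S.card →
      c * (S.card : ℝ) ^ 2 * Real.log X ≤
        ∑ D ∈ S, ∑ E ∈ S.erase D, 2 * (D : ℝ) * E / ((D : ℝ) ^ 2 + (E : ℝ) ^ 2) * LHalf (D * E)) ∧
    -- (3) many positive central values
    (∃ c : ℝ, 0 < c ∧ ∃ X₀ : ℝ, ∀ X : ℝ, X₀ ≤ X → ∀ S : Finset ℤ, Family S X R →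
      X ^ (1 / 2 + δ) ≤ S.card →
      c * (S.card : ℝ) ^ 2 * Real.log X / Real.sqrt X ≤
        ((S ×ˢ S).filter fun p => p.1 ≠ p.2 ∧ c * Real.log X ≤ LHalf (p.1 * p.2)).card) :=
  ⟨Pool.Agent.Q122.FM.fdd.1,
    fun _ _ hD hE hc h => ⟨Pool.Agent.H86.QC.fund_mul hD hE hc, Pool.Agent.H86.QC.mul_ne_one h⟩,
    fun k hk => Pool.Agent.H86.QC.moments_general k hk hδ hR,
    Pool.Agent.H86.QC.first_signed hδ hR,
    Pool.Agent.H86.QC.many_general hδ hR⟩

end

end Pool.Agent.Results.MP_ea46f5_nt.ProductsFromArbitrarySets
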