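import Pool.Agent.H28.BR.All4

set_option autoImplicit false

/-!
# The second moment of `L(1/2, χ_D)` along all Beatty sequences and all irrational rotations

For every irrational `α > 1` the second moment of the central values over the fundamental discriminants `D = ± n`,
`n ≤ X`, `n` a term of the Beatty sequence `⌊α m + β⌋`, is asymptotic to `1/α` times `3X/π² · (a₂/24) log³ X`, the
leading term of the conjecture for `k = 2`, uniformly in `β`; the same for all arcs of every irrational rotation, and the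
equidistribution holds in every residue class.
-/

namespace Pool.Agent.Results.MP_ea46f5_nt.SecondMomentAllBeattySequences

open Finset Filter Topology

noncomputable section

/-- `(D/2)` for a fundamental discriminant `D`: `1`, `-1`, `0` for `D ≡ 1`, `5` modulo `8`, `D` even -/
def kr2 (D : ℤ) : ℤ := if D % 8 = 1 then 1 else if D % 8 = 5 then -1 else 0

/-- the Kronecker symbol `(D/n)`, `n ≥ 1`, for a fundamental discriminant `D` -/
def kron (D : ℤ) (n : ℕ) : ℤ :=
  kr2 D ^ (n.factorization 2) * jacobiSym D (n / 2 ^ (n.factorization 2))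

/-- fundamental discriminants (with `1`) -/
def IsFund (D : ℤ) : Prop :=
  (D % 4 = 1 ∧ Squarefree D) ∨
    ∃ m : ℤ, D = 4 * m ∧ (m % 4 = 2 ∨ m % 4 = 3) ∧ Squarefree m

/-- `L(1/2, χ_D)`, the limit of the partial sums of `∑ (D/n) n^{-1/2}` -/
def LHalf (D : ℤ) : ℝ :=
  limUnder atTop (fun N : ℕ => ∑ n ∈ Icc 1 N, (kron D n : ℝ) / Real.sqrt n)

/-- the factor at `p` of the constant `a₂` -/
def a2Factor (p : Nat.Primes) : ℝ :=
  (1 - 1 / ((p : ℕ) : ℝ)) ^ 3 *
    (((1 - 1 / Real.sqrt ((p : ℕ) : ℝ))⁻¹ ^ 2 + (1 + 1 / Real.sqrt ((p : ℕ) : ℝ))⁻¹ ^ 2) / 2 + 1 / ((p : ℕ) : ℝ)) /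
      (1 + 1 / ((p : ℕ) : ℝ))

/-- the constant `a₂ = A₂(0, 0)` of the conjecture -/
def a2 : ℝ := ∏' p : Nat.Primes, a2Factor p

/-- the leading term of `(3X/π²) Q_±(2, log X)` -/
def lead (X : ℕ) : ℝ := 3 * X / Real.pi ^ 2 * (a2 / 24 * Real.log X ^ 3)

open Classical in
/-- sum of `L(1/2, χ_D)²` over the fundamental discriminants `D = ε n`, `1 < n ≤ X`, with `P n` -/
def secondMoment (ε : ℤ) (X : ℕ) (P : ℕ → Prop) : ℝ :=
  ∑ n ∈ Ioc 1 X, if P n ∧ IsFund (ε * (n : ℤ)) then LHalf (ε * (n : ℤ)) ^ 2 else 0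

theorem result :
    -- the partial sums of the series of `L(1/2, χ_D)` and the product `a2` converge
    (∀ D : ℤ, IsFund D → D ≠ 1 →
      Tendsto (fun N : ℕ => ∑ n ∈ Icc 1 N, (kron D n : ℝ) / Real.sqrt n) atTop (𝓝 (LHalf D))) ∧
    Multipliable a2Factor ∧ 0 < a2 ∧
    -- all fundamental discriminants
    (∀ ε : ℤ, (ε = 1 ∨ ε = -1) →
      Tendsto (fun X : ℕ => secondMoment ε X (fun _ => True) / lead X) atTop (𝓝 1)) ∧
    -- Beatty sequences, uniformly in `β`
    (∀ α : ℝ, 1 < α → Irrational α → ∀ δ : ℝ, 0 < δ → ∃ X0 : ℕ,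
      ∀ ε : ℤ, (ε = 1 ∨ ε = -1) → ∀ X : ℕ, X0 ≤ X → ∀ β : ℝ,
      |secondMoment ε X (fun n => ∃ m : ℤ, ⌊α * m + β⌋ = (n : ℤ)) - 1 / α * lead X| ≤ δ * lead X) ∧
    -- arcs, uniformly in the arc
    (∀ α : ℝ, Irrational α → ∀ δ : ℝ, 0 < δ → ∃ X0 : ℕ,
      ∀ ε : ℤ, (ε = 1 ∨ ε = -1) → ∀ X : ℕ, X0 ≤ X → ∀ β v : ℝ, 0 ≤ v → v ≤ 1 →
      |secondMoment ε X (fun n => Int.fract (α * n + β) < v) - v * lead X| ≤ δ * lead X) ∧
    -- Beatty sequences in residue classes
    (∀ α : ℝ, 1 < α → Irrational α → ∀ q b : ℕ, 1 ≤ q → ∀ δ : ℝ, 0 < δ → ∃ X0 : ℕ,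
      ∀ ε : ℤ, (ε = 1 ∨ ε = -1) → ∀ X : ℕ, X0 ≤ X → ∀ β : ℝ,
      |secondMoment ε X (fun n => n % q = b ∧ ∃ m : ℤ, ⌊α * m + β⌋ = (n : ℤ)) -
        1 / α * secondMoment ε X (fun n => n % q = b)| ≤ δ * lead X) ∧
    -- arcs in residue classes
    (∀ α : ℝ, Irrational α → ∀ q b : ℕ, 1 ≤ q → ∀ δ : ℝ, 0 < δ → ∃ X0 : ℕ,
      ∀ ε : ℤ, (ε = 1 ∨ ε = -1) → ∀ X : ℕ, X0 ≤ X → ∀ β v : ℝ, 0 ≤ v → v ≤ 1 →
      |secondMoment ε X (fun n => n % q = b ∧ Int.fract (α * n + β) < v) -
        v * secondMoment ε X (fun n => n % q = b)| ≤ δ * lead X) := by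
  have key : ∀ (ε : ℤ) (X : ℕ) (P : ℕ → Prop) [DecidablePred P],
      secondMoment ε X P = ∑ n ∈ (Ioc 1 X).filter P, Pool.Agent.H28.BR.Lf ε n ^ 2 := by
    intro ε X P _
    unfold secondMoment
    rw [Finset.sum_filter]
    apply Finset.sum_congr rfl
    intro n _
    unfold Pool.Agent.H28.BR.Lf
    by_cases h1 : P n
    · by_cases h2 : IsFund (ε * (n : ℤ))
      · have h3 : Pool.Agent.Q122.FM.IsFund (ε * (n : ℤ)) := h2
        rw [if_pos ⟨h1, h2⟩, if_pos h1, if_pos h3]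
        rfl
      · have h3 : ¬ Pool.Agent.Q122.FM.IsFund (ε * (n : ℤ)) := h2
        rw [if_neg (fun h => h2 h.2), if_pos h1, if_neg h3]
        norm_num
    · rw [if_neg (fun h => h1 h.1), if_neg h1]
  have keyT : ∀ (ε : ℤ) (X : ℕ), secondMoment ε X (fun _ => True) =
      ∑ n ∈ Ioc 1 X, Pool.Agent.H28.BR.Lf ε n ^ 2 := by
    intro ε X
    rw [key, Finset.filter_true_of_mem (fun _ _ => trivial)]
  have ha2 : a2 = 13 / 24 * Pool.Agent.H28.BR4.HH := Pool.Agent.H28.BR4.con.1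
  have ha2p : 0 < a2 := Pool.Agent.H28.BR4.con.2
  -- the leading term
  have hpos : ∀ X : ℕ, 3 ≤ X → 1 ≤ Real.log X ∧ 0 < lead X := by
    intro X hX
    have hX0 : (3 : ℝ) ≤ X := by exact_mod_cast hX
    have hlog : 1 ≤ Real.log X := by
      rw [Real.le_log_iff_exp_le (by linarith)]
      have := Real.exp_one_lt_d9
      linarith
    refine ⟨hlog, ?_⟩
    unfold lead
    have hpi := Real.pi_pos
    positivity
  have hall : ∀ ε : ℤ, (ε = 1 ∨ ε = -1) →
      Tendsto (fun X : ℕ => secondMoment ε X (fun _ => True) / lead X) atTop (𝓝 1) := by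
    intro ε hε
    have h1 := Pool.Agent.H28.BR4.lf2 ε hε
    have h2 : Tendsto (fun X : ℕ => (Pool.Agent.H28.BR.lg X / Real.log X) ^ 3) atTop (𝓝 1) := by
      have h3 : Tendsto (fun X : ℕ => 1 / Real.log X + 1) atTop (𝓝 1) := by
        have h4 : Tendsto (fun X : ℕ => Real.log X) atTop atTop :=
          Real.tendsto_log_atTop.comp tendsto_natCast_atTop_atTop
        have h5 := (tendsto_const_nhds (x := (1 : ℝ))).div_atTop h4
        have h6 := h5.add_const 1
        rw [zero_add] at h6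
        exact h6
      have h7 : Tendsto (fun X : ℕ => (1 / Real.log X + 1) ^ 3) atTop (𝓝 1) := by
        have := h3.pow 3
        rw [one_pow] at this
        exact this
      refine h7.congr' ?_
      filter_upwards [eventually_ge_atTop 3] with X hX
      have hl := (hpos X hX).1
      unfold Pool.Agent.H28.BR.lg
      congr 1
      field_simp
    have hHp : 0 < Pool.Agent.H28.BR4.HH := by
      rw [ha2] at ha2p
      linarith
    have hpi := Real.pi_pos
    set c0 : ℝ := 13 * Pool.Agent.H28.BR4.HH / (192 * Real.pi ^ 2) with hc0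
    have hc0p : 0 < c0 := by positivity
    have h8 := (h1.mul h2).div_const c0
    rw [mul_one, div_self hc0p.ne'] at h8
    refine h8.congr' ?_
    filter_upwards [eventually_ge_atTop 3] with X hX
    have hl := (hpos X hX).1
    have hX0 : (3 : ℝ) ≤ X := by exact_mod_cast hX
    have hlg : 1 ≤ Pool.Agent.H28.BR.lg X := Pool.Agent.H28.BR3.lg_pos (by omega)
    rw [keyT]
    unfold lead
    rw [ha2, hc0]
    have g1 : Real.log X ≠ 0 := by linarith
    have g2 : Pool.Agent.H28.BR.lg X ≠ 0 := by linarith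
    have g3 : (X : ℝ) ≠ 0 := by linarith
    field_simp
    ring
  have harc : ∀ α : ℝ, Irrational α → ∀ q b : ℕ, 1 ≤ q → ∀ δ : ℝ, 0 < δ → ∃ X0 : ℕ,
      ∀ ε : ℤ, (ε = 1 ∨ ε = -1) → ∀ X : ℕ, X0 ≤ X → ∀ β v : ℝ, 0 ≤ v → v ≤ 1 →
      |secondMoment ε X (fun n => n % q = b ∧ Int.fract (α * n + β) < v) -
        v * secondMoment ε X (fun n => n % q = b)| ≤ δ * lead X := by
    intro α hα q b hq δ hδ
    have h1 : ∀ ε : ℤ, (ε = 1 ∨ ε = -1) → ∃ X0 : ℕ, ∀ X : ℕ, X0 ≤ X → ∀ β v : ℝ, 0 ≤ v → v ≤ 1 →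
        |secondMoment ε X (fun n => n % q = b ∧ Int.fract (α * n + β) < v) -
        v * secondMoment ε X (fun n => n % q = b)| ≤ δ * lead X := by
      intro ε hε
      obtain ⟨X0, h⟩ := Pool.Agent.H28.BR3.arcs Pool.Agent.H28.BR3.wey Pool.Agent.H28.BR3.uni
        Pool.Agent.H28.BR3.cls
        (fun n => Pool.Agent.H28.BR.Lf ε n ^ 2) (fun n => sq_nonneg _)
        (Pool.Agent.H28.BR3.tot_pos Pool.Agent.H28.BR3.ord ε hε)
        (Pool.Agent.H28.BR3.twist Pool.Agent.H28.BR3.ord Pool.Agent.H28.BR3.ir2 ε hε) α hα q b hq (δ / 2)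
        (by positivity)
      obtain ⟨X1, h1⟩ := Filter.eventually_atTop.1 ((hall ε hε).eventually (gt_mem_nhds one_lt_two))
      refine ⟨max X0 (max X1 3), fun X hX β v hv hv1 => ?_⟩
      have h2 := h X ((le_max_left _ _).trans hX) β v hv hv1
      rw [key ε X (fun n => n % q = b ∧ Int.fract (α * n + β) < v), key ε X (fun n => n % q = b)]
      refine h2.trans ?_
      have h3 := h1 X ((le_max_left _ _).trans ((le_max_right _ _).trans hX))
      have h4 := (hpos X ((le_max_right _ _).trans ((le_max_right _ _).trans hX))).2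
      rw [keyT, div_lt_iff₀ h4] at h3
      nlinarith
    obtain ⟨X1, h2⟩ := h1 1 (Or.inl rfl)
    obtain ⟨X2, h3⟩ := h1 (-1) (Or.inr rfl)
    refine ⟨max X1 X2, fun ε hε X hX => ?_⟩
    rcases hε with rfl | rfl
    · exact h2 X ((le_max_left _ _).trans hX)
    · exact h3 X ((le_max_right _ _).trans hX)
  -- arcs
  have harc1 : ∀ α : ℝ, Irrational α → ∀ δ : ℝ, 0 < δ → ∃ X0 : ℕ,
      ∀ ε : ℤ, (ε = 1 ∨ ε = -1) → ∀ X : ℕ, X0 ≤ X → ∀ β v : ℝ, 0 ≤ v → v ≤ 1 →
      |secondMoment ε X (fun n => Int.fract (α * n + β) < v) - v * lead X| ≤ δ * lead X := by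
    intro α hα δ hδ
    obtain ⟨X0, h⟩ := harc α hα 1 0 le_rfl (δ / 2) (by positivity)
    have hfull : ∀ ε : ℤ, (ε = 1 ∨ ε = -1) → ∃ X1 : ℕ, ∀ X : ℕ, X1 ≤ X →
        |secondMoment ε X (fun _ => True) - lead X| ≤ δ / 2 * lead X := by
      intro ε hε
      have h1 := (Metric.tendsto_atTop.1 (hall ε hε)) (δ / 2) (by positivity)
      obtain ⟨X1, h1⟩ := h1
      refine ⟨max X1 3, fun X hX => ?_⟩
      have h2 := h1 X ((le_max_left _ _).trans hX)
      have h4 := (hpos X ((le_max_right _ _).trans hX)).2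
      rw [Real.dist_eq] at h2
      have e1 : secondMoment ε X (fun _ => True) - lead X =
          (secondMoment ε X (fun _ => True) / lead X - 1) * lead X := by
        field_simp
      rw [e1, abs_mul, abs_of_pos h4]
      exact mul_le_mul_of_nonneg_right h2.le h4.le
    obtain ⟨X1, h1⟩ := hfull 1 (Or.inl rfl)
    obtain ⟨X2, h2⟩ := hfull (-1) (Or.inr rfl)
    refine ⟨max X0 (max X1 X2), fun ε hε X hX β v hv hv1 => ?_⟩
    have h3 := h ε hε X ((le_max_left _ _).trans hX) β v hv hv1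
    have h4 : |secondMoment ε X (fun _ => True) - lead X| ≤ δ / 2 * lead X := by
      rcases hε with rfl | rfl
      · exact h1 X ((le_max_left _ _).trans ((le_max_right _ _).trans hX))
      · exact h2 X ((le_max_right _ _).trans ((le_max_right _ _).trans hX))
    have e1 : secondMoment ε X (fun n => n % 1 = 0 ∧ Int.fract (α * n + β) < v) =
        secondMoment ε X (fun n => Int.fract (α * n + β) < v) := by
      congr 1
      funext n
      simp [Nat.mod_one]
    have e2 : secondMoment ε X (fun n => n % 1 = 0) = secondMoment ε X (fun _ => True) := by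
      congr 1
      funext n
      simp [Nat.mod_one]
    rw [e1, e2] at h3
    have e3 : secondMoment ε X (fun n => Int.fract (α * n + β) < v) - v * lead X =
        (secondMoment ε X (fun n => Int.fract (α * n + β) < v) - v * secondMoment ε X (fun _ => True)) +
        v * (secondMoment ε X (fun _ => True) - lead X) := by ring
    rw [e3]
    refine (abs_add_le _ _).trans ?_
    rw [abs_mul, abs_of_nonneg hv]
    have h5 : v * |secondMoment ε X (fun _ => True) - lead X| ≤ 1 * (δ / 2 * lead X) :=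
      mul_le_mul hv1 h4 (abs_nonneg _) zero_le_one
    linarith
  -- Beatty sequences
  have hbty : ∀ α : ℝ, 1 < α → ∀ (ε : ℤ) (X : ℕ) (β : ℝ) (P : ℕ → Prop),
      secondMoment ε X (fun n => P n ∧ ∃ m : ℤ, ⌊α * m + β⌋ = (n : ℤ)) =
        secondMoment ε X (fun n => P n ∧ Int.fract (-(1 / α) * n + β / α) < 1 / α) := by
    intro α hα1 ε X β P
    unfold secondMoment
    apply Finset.sum_congr rfl
    intro n _
    have h5 := Pool.Agent.H28.BR.bty α β n hα1
    by_cases h6 : (P n ∧ Int.fract (-(1 / α) * n + β / α) < 1 / α) ∧ IsFund (ε * (n : ℤ))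
    · rw [if_pos h6, if_pos ⟨⟨h6.1.1, h5.2 h6.1.2⟩, h6.2⟩]
    · rw [if_neg h6, if_neg (fun h => h6 ⟨⟨h.1.1, h5.1 h.1.2⟩, h.2⟩)]
  have hirr : ∀ α : ℝ, Irrational α → Irrational (-(1 / α)) := by
    intro α hα
    rw [one_div]
    exact hα.inv.neg
  refine ⟨Pool.Agent.Q122.FM.fdd.1, Pool.Agent.H28.BR4.multA2, ha2p, hall, ?_, harc1, ?_, harc⟩
  · intro α hα1 hα δ hδ
    have hα0 : 0 < α := by linarith
    obtain ⟨X0, h⟩ := harc1 (-(1 / α)) (hirr α hα) δ hδ
    refine ⟨X0, fun ε hε X hX β => ?_⟩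
    have h4 := h ε hε X hX (β / α) (1 / α) (by positivity) (by rw [div_le_one hα0]; exact hα1.le)
    have e1 := hbty α hα1 ε X β (fun _ => True)
    simp only [true_and] at e1
    rw [e1]
    exact h4
  · intro α hα1 hα q b hq δ hδ
    have hα0 : 0 < α := by linarith
    obtain ⟨X0, h⟩ := harc (-(1 / α)) (hirr α hα) q b hq δ hδ
    refine ⟨X0, fun ε hε X hX β => ?_⟩
    have h4 := h ε hε X hX (β / α) (1 / α) (by positivity) (by rw [div_le_one hα0]; exact hα1.le)
    rw [hbty α hα1 ε X β (fun n => n % q = b)]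
    exact h4

end

end Pool.Agent.Results.MP_ea46f5_nt.SecondMomentAllBeattySequences
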